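import Pool.Agent.H6.AK.Stmts

/-!
# Module GRD (MP_4e8966_co): greedy choice of few elements meeting all tests
-/

set_option autoImplicit false

namespace Pool.Agent.H6.AK

/-- one step of the greedy choice -/
theorem grd_step {α β : Type} [DecidableEq α] [DecidableEq β] (Om : Finset α) (W : Finset β)
    (R : β → α → Prop) [∀ w a, Decidable (R w a)] (eta : ℝ) (hne : Om.Nonempty)
    (h : ∀ w ∈ W, eta * (Om.card : ℝ) ≤ ((Om.filter fun a => R w a).card : ℝ)) :
    ∃ a ∈ Om, ((W.filter fun w => ¬ R w a).card : ℝ) ≤ (1 - eta) * (W.card : ℝ) := by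
  apply Finset.exists_le_of_sum_le hne
  rw [Finset.sum_const, nsmul_eq_mul]
  have h1 : ∑ a ∈ Om, ((W.filter fun w => ¬ R w a).card : ℝ) =
      ∑ w ∈ W, ((Om.filter fun a => ¬ R w a).card : ℝ) := by
    have h2 : ∑ a ∈ Om, (W.filter fun w => ¬ R w a).card =
        ∑ w ∈ W, (Om.filter fun a => ¬ R w a).card := by
      simp only [Finset.card_filter]
      exact Finset.sum_comm
    exact_mod_cast h2
  rw [h1]
  have h3 : ∀ w ∈ W, ((Om.filter fun a => ¬ R w a).card : ℝ) ≤ (1 - eta) * (Om.card : ℝ) := by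
    intro w hw
    have h4 := h w hw
    have h5 := Finset.card_filter_add_card_filter_not (s := Om) (fun a => R w a)
    have h6 : ((Om.filter fun a => R w a).card : ℝ) + ((Om.filter fun a => ¬ R w a).card : ℝ) =
        (Om.card : ℝ) := by
      exact_mod_cast h5
    linarith
  calc ∑ w ∈ W, ((Om.filter fun a => ¬ R w a).card : ℝ)
      ≤ ∑ w ∈ W, (1 - eta) * (Om.card : ℝ) := Finset.sum_le_sum h3
    _ = (Om.card : ℝ) * ((1 - eta) * (W.card : ℝ)) := by
        rw [Finset.sum_const, nsmul_eq_mul]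
        ring

/-- GRD -/
theorem grd_thm : GRDStmt := by
  intro α β _ _ Om W R _ eta N hne h0 h1 hW hN
  induction N generalizing W with
  | zero =>
    refine ⟨fun t => t.elim0, fun t => t.elim0, fun w hw => ?_⟩
    rw [pow_zero, mul_one] at hN
    have h2 : W.card < 1 := by exact_mod_cast hN
    have h3 : 0 < W.card := Finset.card_pos.2 ⟨w, hw⟩
    omega
  | succ N ih =>
    obtain ⟨a0, ha0, hle⟩ := grd_step Om W R eta hne hW
    have h2 : ((W.filter fun w => ¬ R w a0).card : ℝ) * (1 - eta) ^ N < 1 := by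
      have h3 : 0 ≤ (1 - eta) ^ N := pow_nonneg (by linarith) _
      have h4 := mul_le_mul_of_nonneg_right hle h3
      have h5 : (1 - eta) * (W.card : ℝ) * (1 - eta) ^ N = (W.card : ℝ) * (1 - eta) ^ (N + 1) := by
        ring
      linarith
    obtain ⟨a, ha, hR⟩ := ih (W.filter fun w => ¬ R w a0)
      (fun w hw => hW w (Finset.mem_of_mem_filter w hw)) h2
    refine ⟨Fin.cons a0 a, fun t => ?_, fun w hw => ?_⟩
    · refine Fin.cases ?_ (fun t => ?_) t
      · exact ha0
      · exact ha t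
    · by_cases hw0 : R w a0
      · exact ⟨0, hw0⟩
      · obtain ⟨t, ht⟩ := hR w (Finset.mem_filter.2 ⟨hw, hw0⟩)
        exact ⟨t.succ, ht⟩

end Pool.Agent.H6.AK
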